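import Pool.Agent.R43.WF.Stm

/-! WF-AR: arithmetic for odd `m`. -/

set_option autoImplicit false

namespace Pool.Agent.R43.WF

namespace ARAux

theorem small (n m d h c : ℕ) (hn : n = d * h) (hc : 3 * c = d + 1) (hm : m ≤ c * h)
    (hc3 : 3 ≤ c) (hm4 : m = 13 ∨ m = 23 ∨ m = 43 ∨ m = 53)
    (hlt : (m = 13 → n < 36) ∧ (m = 23 → n < 64) ∧ (m = 43 → n < 120) ∧ (m = 53 → n < 144)) :
    False := by
  have hn144 : n < 144 := by
    rcases hm4 with h | h | h | h <;> omega
  have hd8 : 8 ≤ d := by omega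
  have h8 : 8 * h ≤ n := by rw [hn]; exact Nat.mul_le_mul_right h hd8
  have hh : h < 18 := by omega
  interval_cases h <;> omega

theorem key (n m d h c : ℕ) (hn : n = d * h) (hc : 3 * c = d + 1) (hm : m ≤ c * h)
    (hc3 : 3 ≤ c) : 8 * m ≤ 3 * n := by
  have h1 : d = 3 * c - 1 := by omega
  obtain ⟨k, rfl⟩ := Nat.exists_eq_add_of_le hc3
  have h2 : d = 3 * k + 8 := by omega
  subst h2
  subst hn
  nlinarith [Nat.zero_le (k * h)]

end ARAux

theorem ar_main : S_AR := by
  intro n m d h c h5 hodd h7 hn hc hm hd2 hd5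
  rcases Nat.lt_or_ge c 3 with hc3 | hc3
  · have hc2 : c = 2 := by omega
    have hd : d = 5 := by omega
    subst hc2
    subst hd
    have h' := hd5 rfl
    unfold F
    split_ifs <;> omega
  · have hk := ARAux.key n m d h c hn hc hm hc3
    by_contra hlt
    have hs := ARAux.small n m d h c hn hc hm hc3
    unfold F at hlt
    split_ifs at hlt with a1 a2 a3 a4 a5 a6 a7 a8 a9
    all_goals first
      | omega
      | exact hs (by omega) (by refine ⟨?_, ?_, ?_, ?_⟩ <;> intro hh <;> omega)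

end Pool.Agent.R43.WF
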