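import Pool.Agent.R43.WF.Stm

/-!
# Project WF, piece CONS: sets with prescribed numbers of elements in the classes mod `d`.
-/

set_option autoImplicit false

open Finset

namespace Pool.Agent.R43.WF

namespace CONSAux

lemma fibre_card (n d h : ℕ) [NeZero d] [NeZero n] (hn : n = d * h)
    (f : ZMod n →+* ZMod d) (z : ZMod d) :
    (univ.filter (fun x : ZMod n => f x = z)).card = h := by
  have hsurj : Function.Surjective f := ZMod.ringHom_surjective f
  have hall : ∀ w : ZMod d, (univ.filter (fun x : ZMod n => f x = w)).card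
      = (univ.filter (fun x : ZMod n => f x = z)).card := by
    intro w
    exact AddMonoidHom.card_fiber_eq_of_mem_range (f : ZMod n →+ ZMod d)
      (hsurj w) (hsurj z)
  have hsum : (univ : Finset (ZMod n)).card
      = ∑ w : ZMod d, (univ.filter (fun x : ZMod n => f x = w)).card :=
    Finset.card_eq_sum_card_fiberwise (f := f) (t := univ) (by intro x _; simp)
  rw [Finset.sum_congr rfl (fun w _ => hall w)] at hsum
  rw [Finset.sum_const, Finset.card_univ, Finset.card_univ, ZMod.card, ZMod.card,
    smul_eq_mul] at hsum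
  have hd : 0 < d := Nat.pos_of_ne_zero (NeZero.ne d)
  have h2 : d * h = d * (univ.filter (fun x : ZMod n => f x = z)).card := by
    rw [← hn]; exact hsum
  exact (Nat.eq_of_mul_eq_mul_left hd h2).symm

end CONSAux

theorem cons_main : S_CONS := by
  intro n d h _ hh hn cnt hcnt hgood
  have hd : 0 < d := Nat.pos_of_ne_zero (NeZero.ne d)
  have hnpos : 0 < n := by rw [hn]; exact Nat.mul_pos hd hh
  haveI : NeZero n := ⟨hnpos.ne'⟩
  have hdvd : d ∣ n := ⟨h, hn⟩
  let f : ZMod n →+* ZMod d := ZMod.castHom hdvd (ZMod d)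
  have hex : ∀ z : ZMod d, ∃ t : Finset (ZMod n),
      t ⊆ univ.filter (fun x : ZMod n => f x = z) ∧ t.card = cnt z := by
    intro z
    apply Finset.exists_subset_card_eq
    rw [CONSAux.fibre_card n d h hn f z]
    exact hcnt z
  choose T hT hTc using hex
  have hfT : ∀ z : ZMod d, ∀ x ∈ T z, f x = z := by
    intro z x hx
    have := hT z hx
    simpa using this
  have hdisj : ∀ z ∈ (univ : Finset (ZMod d)), ∀ w ∈ (univ : Finset (ZMod d)), z ≠ w →
      Disjoint (T z) (T w) := by
    intro z _ w _ hzw
    rw [Finset.disjoint_left]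
    intro x hx hx'
    exact hzw ((hfT z x hx).symm.trans (hfT w x hx'))
  refine ⟨univ.biUnion T, ?_, ?_⟩
  · rw [Finset.card_biUnion hdisj]
    exact Finset.sum_congr rfl (fun z _ => hTc z)
  · have hne : ∀ a ∈ univ.biUnion T, cnt (f a) ≠ 0 := by
      intro a ha
      rw [Finset.mem_biUnion] at ha
      obtain ⟨z, _, hz⟩ := ha
      rw [hfT z a hz, ← hTc z]
      exact (Finset.card_pos.mpr ⟨a, hz⟩).ne'
    intro a ha b hb c hc _ habc
    apply hgood (f a) (f b) (f c) (hne a ha) (hne b hb) (hne c hc)
    have h1 : f (a + b + c) = f (∑ x ∈ univ.biUnion T, x) := by rw [habc]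
    rw [map_add, map_add, map_sum, Finset.sum_biUnion hdisj] at h1
    rw [h1]
    apply Finset.sum_congr rfl
    intro z _
    rw [Finset.sum_congr rfl (fun x hx => hfT z x hx), Finset.sum_const, hTc z, nsmul_eq_mul]

end Pool.Agent.R43.WF
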