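import Pool.Agent.R43.WF.Stm

/-! WF-D25: the indices 2 and 5. -/

set_option autoImplicit false

open Finset

namespace Pool.Agent.R43.WF

namespace D25Aux

open Classical in
theorem fib_le {n : ℕ} [NeZero n] (A : Finset (ZMod n)) (H : AddSubgroup (ZMod n)) (h : ℕ)
    (hh : Nat.card H = h) (t : ZMod n ⧸ H) :
    (A.filter (fun a : ZMod n => ((a : ZMod n) : ZMod n ⧸ H) = t)).card ≤ h := by
  rcases (A.filter (fun a : ZMod n => ((a : ZMod n) : ZMod n ⧸ H) = t)).eq_empty_or_nonempty with h0 | ⟨a0, h0⟩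
  · rw [h0, card_empty]
    exact Nat.zero_le _
  · have e1 : h = (univ.filter (fun x : ZMod n => x ∈ H)).card := by
      rw [← hh, Nat.card_eq_fintype_card, Fintype.card_subtype]
    rw [e1]
    apply card_le_card_of_injOn (fun x => x - a0)
    · intro x hx
      have hx' := (mem_filter.1 (mem_coe.1 hx)).2
      have h0' := (mem_filter.1 h0).2
      refine mem_coe.2 (mem_filter.2 ⟨mem_univ _, ?_⟩)
      show x - a0 ∈ H
      rw [← QuotientAddGroup.eq_zero_iff]
      show ((x - a0 : ZMod n) : ZMod n ⧸ H) = 0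
      rw [QuotientAddGroup.mk_sub, hx', h0', sub_self]
    · intro x _ y _ hxy
      exact sub_left_injective hxy

end D25Aux

open D25Aux

open Classical in
theorem d25_main : S_D25 := by
  intro n m _ A hA hm H d h c hd hh hn hc hcard hno
  have himg : (A.image (fun a : ZMod n => ((a : ZMod n) : ZMod n ⧸ H))).card = c := by
    exact hcard
  clear hcard
  rename _ => hcard
  have hmem : ∀ x : ZMod n, x ∈ H ↔ ((x : ZMod n) : ZMod n ⧸ H) = 0 :=
    fun x => (QuotientAddGroup.eq_zero_iff x).symm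
  have hQ : ∀ x : ZMod n ⧸ H, d • x = 0 := by
    intro x
    rw [← hd, AddSubgroup.index_eq_card]
    exact card_nsmul_eq_zero'
  have hσ : ((∑ x ∈ A, x : ZMod n) : ZMod n ⧸ H) = ∑ x ∈ A, ((x : ZMod n) : ZMod n ⧸ H) :=
    map_sum (QuotientAddGroup.mk' H) (fun x => x) A
  constructor
  · intro h2
    have hc1 : c = 1 := by omega
    rw [hc1, Finset.card_eq_one] at hcard
    obtain ⟨t, ht⟩ := hcard
    have ht' : ∀ a ∈ A, ((a : ZMod n) : ZMod n ⧸ H) = t := by
      intro a ha
      have : ((a : ZMod n) : ZMod n ⧸ H) ∈ A.image (fun a : ZMod n => ((a : ZMod n) : ZMod n ⧸ H)) :=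
        mem_image_of_mem _ ha
      rw [ht] at this
      exact mem_singleton.1 this
    have hne : A.Nonempty := by
      rw [← card_pos]
      omega
    obtain ⟨a, ha⟩ := hne
    apply hno a ha a ha a ha
    rw [hmem, QuotientAddGroup.mk_sub, QuotientAddGroup.mk_add, QuotientAddGroup.mk_add, hσ,
      Finset.sum_congr rfl ht', Finset.sum_const, hA, ht' a ha]
    have h2t : 2 • t = 0 := by
      have := hQ t
      rwa [h2] at this
    obtain ⟨j, hj⟩ : ∃ j, m = j * 2 + 1 := ⟨m / 2, by omega⟩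
    rw [hj, add_smul, mul_smul, h2t, smul_zero, zero_add, one_smul]
    rw [two_smul] at h2t
    rw [h2t, zero_add, sub_self]
  · intro h5 hm10
    by_contra hcon
    have hc2 : c = 2 := by omega
    rw [hc2, Finset.card_eq_two] at hcard
    obtain ⟨t, t', htt, ht⟩ := hcard
    have hcl : ∀ a ∈ A, ((a : ZMod n) : ZMod n ⧸ H) = t ∨ ((a : ZMod n) : ZMod n ⧸ H) = t' := by
      intro a ha
      have : ((a : ZMod n) : ZMod n ⧸ H) ∈ A.image (fun a : ZMod n => ((a : ZMod n) : ZMod n ⧸ H)) :=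
        mem_image_of_mem _ ha
      rw [ht] at this
      simpa using this
    obtain ⟨a, ha, hat⟩ : ∃ a ∈ A, ((a : ZMod n) : ZMod n ⧸ H) = t := by
      have : t ∈ A.image (fun a : ZMod n => ((a : ZMod n) : ZMod n ⧸ H)) := by rw [ht]; simp
      simpa using this
    obtain ⟨a', ha', hat'⟩ : ∃ a ∈ A, ((a : ZMod n) : ZMod n ⧸ H) = t' := by
      have : t' ∈ A.image (fun a : ZMod n => ((a : ZMod n) : ZMod n ⧸ H)) := by rw [ht]; simp
      simpa using this
    have hs := sum_filter_add_sum_filter_not A (fun a => ((a : ZMod n) : ZMod n ⧸ H) = t')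
      (fun x => ((x : ZMod n) : ZMod n ⧸ H))
    have hk := card_filter_add_card_filter_not (s := A) (fun a => ((a : ZMod n) : ZMod n ⧸ H) = t')
    have hf : A.filter (fun a => ¬ ((a : ZMod n) : ZMod n ⧸ H) = t') =
        A.filter (fun a : ZMod n => ((a : ZMod n) : ZMod n ⧸ H) = t) := by
      apply filter_congr
      intro x hx
      constructor
      · intro h1
        exact (hcl x hx).resolve_right h1
      · intro h1 h2
        exact htt (h1.symm.trans h2)
    rw [hf] at hs hk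
    have hb1 := fib_le A H h hh t'
    have hb2 := fib_le A H h hh t
    obtain ⟨b, hb⟩ : ∃ b, b = (A.filter (fun a : ZMod n => ((a : ZMod n) : ZMod n ⧸ H) = t')).card := ⟨_, rfl⟩
    obtain ⟨b', hb'⟩ : ∃ b, b = (A.filter (fun a : ZMod n => ((a : ZMod n) : ZMod n ⧸ H) = t)).card := ⟨_, rfl⟩
    have e1 : ∑ x ∈ A.filter (fun a : ZMod n => ((a : ZMod n) : ZMod n ⧸ H) = t'),
        ((x : ZMod n) : ZMod n ⧸ H) = b • t' := by
      rw [sum_congr rfl (fun x hx => (mem_filter.1 hx).2), sum_const, hb]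
    have e2 : ∑ x ∈ A.filter (fun a : ZMod n => ((a : ZMod n) : ZMod n ⧸ H) = t),
        ((x : ZMod n) : ZMod n ⧸ H) = b' • t := by
      rw [sum_congr rfl (fun x hx => (mem_filter.1 hx).2), sum_const, hb']
    rw [e1, e2, ← hσ] at hs
    rw [← hb, ← hb', hA] at hk
    rw [← hb] at hb1
    rw [← hb'] at hb2
    have h5t : ∀ x : ZMod n ⧸ H, 5 • x = 0 := by
      intro x
      have := hQ x
      rwa [h5] at this
    have hred : ∀ (j : ℕ) (x : ZMod n ⧸ H), j • x = (j % 5) • x := by
      intro j x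
      conv_lhs => rw [← Nat.mod_add_div j 5, add_smul, mul_comm, mul_smul, h5t, smul_zero, add_zero]
    rw [hred b, hred b'] at hs
    have key : ∀ x ∈ A, ∀ y ∈ A, ∀ z ∈ A, ((x : ZMod n) : ZMod n ⧸ H) + ((y : ZMod n) : ZMod n ⧸ H) +
        ((z : ZMod n) : ZMod n ⧸ H) ≠ ((∑ x ∈ A, x : ZMod n) : ZMod n ⧸ H) := by
      intro x hx y hy z hz heq
      apply hno x hx y hy z hz
      rw [hmem, QuotientAddGroup.mk_sub, QuotientAddGroup.mk_add, QuotientAddGroup.mk_add, heq,
        sub_self]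
    have k0 := key a ha a ha a ha
    have k1 := key a ha a ha a' ha'
    have k2 := key a ha a' ha' a' ha'
    have k3 := key a' ha' a' ha' a' ha'
    rw [hat, ← hs] at k0
    rw [hat, hat', ← hs] at k1
    rw [hat, hat', ← hs] at k2
    rw [hat', ← hs] at k3
    have hcases : (b % 5 = 0 ∧ b' % 5 = 3) ∨ (b % 5 = 1 ∧ b' % 5 = 2) ∨ (b % 5 = 2 ∧ b' % 5 = 1) ∨
        (b % 5 = 3 ∧ b' % 5 = 0) := by omega
    rcases hcases with ⟨h1, h2⟩ | ⟨h1, h2⟩ | ⟨h1, h2⟩ | ⟨h1, h2⟩
    · apply k0
      rw [h1, h2, zero_smul]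
      abel
    · apply k1
      rw [h1, h2]
      abel
    · apply k2
      rw [h1, h2]
      abel
    · apply k3
      rw [h1, h2, zero_smul]
      abel

end Pool.Agent.R43.WF
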