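import Pool.Agent.R43.WF.Stm

/-! WF-EQ: translation of the definitions. -/

set_option autoImplicit false

open Finset

namespace Pool.Agent.R43.WF

namespace EQAux

variable {n : ℕ}

theorem mem_restr (h : ℕ) (A : Finset (ZMod n)) (x : ZMod n) :
    x ∈ restr h A ↔ ∃ S : Finset (ZMod n), S ⊆ A ∧ S.card = h ∧ ∑ y ∈ S, y = x := by
  unfold restr
  simp only [Finset.mem_image, Finset.mem_powersetCard]
  constructor
  · rintro ⟨S, ⟨h1, h2⟩, h3⟩
    exact ⟨S, h1, h2, h3⟩
  · rintro ⟨S, h1, h2, h3⟩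
    exact ⟨S, ⟨h1, h2⟩, h3⟩

theorem mem_restr_one (A : Finset (ZMod n)) (x : ZMod n) : x ∈ restr 1 A ↔ x ∈ A := by
  rw [mem_restr]
  constructor
  · rintro ⟨S, h1, h2, h3⟩
    obtain ⟨a, rfl⟩ := Finset.card_eq_one.mp h2
    rw [Finset.sum_singleton] at h3
    rw [← h3]
    exact h1 (Finset.mem_singleton_self a)
  · intro hx
    exact ⟨{x}, by simpa using hx, by simp, by simp⟩

theorem restr_mono (h : ℕ) {A B : Finset (ZMod n)} (hAB : A ⊆ B) : restr h A ⊆ restr h B := by
  intro x hx
  rw [mem_restr] at hx ⊢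
  obtain ⟨S, h1, h2, h3⟩ := hx
  exact ⟨S, h1.trans hAB, h2, h3⟩

theorem wsf_mono (k l : ℕ) {A B : Finset (ZMod n)} (hAB : A ⊆ B) (hB : WSF k l B) : WSF k l A :=
  Disjoint.mono (restr_mono k hAB) (restr_mono l hAB) hB

theorem wsf_iff (k : ℕ) (A : Finset (ZMod n)) (hA : A.card = k + 2) : WSF k 1 A ↔ Good A := by
  constructor
  · intro hW a ha b hb c hc hab heq
    have hsub : ({a, b} : Finset (ZMod n)) ⊆ A := by
      intro z hz
      simp only [Finset.mem_insert, Finset.mem_singleton] at hz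
      rcases hz with rfl | rfl
      · exact ha
      · exact hb
    have hcard : ({a, b} : Finset (ZMod n)).card = 2 := Finset.card_pair hab
    have h1 : c ∈ restr k A := by
      rw [mem_restr]
      refine ⟨A \ {a, b}, Finset.sdiff_subset, ?_, ?_⟩
      · rw [Finset.card_sdiff_of_subset hsub, hA, hcard]
        omega
      · have h2 := Finset.sum_sdiff (f := fun y : ZMod n => y) hsub
        rw [Finset.sum_pair hab, ← heq] at h2
        linear_combination h2
    have h2 : c ∈ restr 1 A := (mem_restr_one A c).mpr hc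
    exact Finset.disjoint_left.mp hW h1 h2
  · intro hG
    refine Finset.disjoint_left.mpr ?_
    intro x hx hx1
    rw [mem_restr_one] at hx1
    rw [mem_restr] at hx
    obtain ⟨S, hS, hc, hs⟩ := hx
    have hc2 : (A \ S).card = 2 := by
      rw [Finset.card_sdiff_of_subset hS, hA, hc]
      omega
    obtain ⟨a, b, hab, hAS⟩ := Finset.card_eq_two.mp hc2
    have ha : a ∈ A := by
      have : a ∈ A \ S := by rw [hAS]; simp
      exact (Finset.mem_sdiff.mp this).1
    have hb : b ∈ A := by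
      have : b ∈ A \ S := by rw [hAS]; simp
      exact (Finset.mem_sdiff.mp this).1
    have h2 := Finset.sum_sdiff (f := fun y : ZMod n => y) hS
    rw [hAS, Finset.sum_pair hab, hs] at h2
    exact hG a ha b hb x hx1 hab h2

end EQAux

open EQAux in
/-- WF-EQ -/
theorem eq_main : S_EQ := by
  intro n k hn hk
  haveI : NeZero n := ⟨by omega⟩
  have hbdd : BddAbove {m | ∃ A : Finset (ZMod n), WSF k 1 A ∧ A.card = m} := by
    refine ⟨n, ?_⟩
    rintro m ⟨A, -, rfl⟩
    have := Finset.card_le_univ A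
    rwa [ZMod.card] at this
  have hne : {m | ∃ A : Finset (ZMod n), WSF k 1 A ∧ A.card = m}.Nonempty := by
    refine ⟨0, ∅, ?_, by simp⟩
    refine Finset.disjoint_left.mpr ?_
    intro x _ hx1
    rw [mem_restr_one] at hx1
    simp at hx1
  constructor
  · intro hle
    obtain ⟨A, hW, hcard⟩ := Nat.sSup_mem hne hbdd
    have h1 : k + 2 ≤ A.card := by rw [hcard]; exact hle
    obtain ⟨B, hB, hBc⟩ := Finset.exists_subset_card_eq h1
    exact ⟨B, hBc, (wsf_iff k B hBc).mp (wsf_mono k 1 hB hW)⟩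
  · rintro ⟨A, hA, hG⟩
    exact le_csSup hbdd ⟨A, (wsf_iff k A hA).mpr hG, hA⟩

end Pool.Agent.R43.WF
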