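import Pool.Agent.R43.WF.Stm

/-! Piece FM of project WF. -/

set_option autoImplicit false

namespace Pool.Agent.R43.WF

theorem fm_main : S_FM := by
  intro m hm
  refine ⟨fun h7 => ?_, by simp [F], ?_⟩
  · unfold F
    split_ifs <;> omega
  · unfold F
    split_ifs <;> omega

end Pool.Agent.R43.WF
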