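import Pool.Agent.R43.WF.STR
import Pool.Agent.R43.WF.D25
import Pool.Agent.R43.WF.EQ
import Pool.Agent.R43.WF.FM

/-!
# Project WF (MP_043c16_co): lower bounds from the structure theorem
-/

set_option autoImplicit false

open Finset

namespace Pool.Agent.R43.WF

open Classical in
/-- good sets in `ℤ_n`, `n ≤ 3m - 4`, give a divisor of `n` -/
theorem low_gen (n m : ℕ) (hn0 : 0 < n) (hn : n + 4 ≤ 3 * m) (A : Finset (ZMod n))
    (hA : A.card = m) (hG : Good A) :
    ∃ (d h c : ℕ), n = d * h ∧ 3 * c = d + 1 ∧ m ≤ c * h ∧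
      (m % 2 = 1 → d ≠ 2 ∧ (d = 5 → m % 10 = 3 → m + 5 ≤ 2 * h)) := by
  haveI : NeZero n := ⟨hn0.ne'⟩
  obtain ⟨H, d, h, c, hd, hh, hdh, hc, himg, hm, hno⟩ :=
    str_main n m A hA hn (∑ x ∈ A, x) (fun a ha b hb c hc hab => hG a ha b hb c hc hab)
  refine ⟨d, h, c, hdh, hc, hm, ?_⟩
  intro hodd
  exact d25_main n m A hA hodd H d h c hd hh hdh hc himg hno

/-- the divisor condition -/
theorem dvd_of_low {n m d h c : ℕ} (hn0 : 0 < n) (h1 : n = d * h) (h2 : 3 * c = d + 1)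
    (h3 : m ≤ c * h) : d ∣ n ∧ d % 3 = 2 ∧ 3 * m ≤ n + n / d := by
  have hd : 0 < d := by
    rcases Nat.eq_zero_or_pos d with h | h
    · rw [h, zero_mul] at h1; omega
    · exact h
  have h4 : n / d = h := by rw [h1]; exact Nat.mul_div_cancel_left h hd
  refine ⟨⟨h, h1⟩, by omega, ?_⟩
  rw [h4, h1]
  calc 3 * m ≤ 3 * (c * h) := by omega
    _ = (3 * c) * h := by ring
    _ = (d + 1) * h := by rw [h2]
    _ = d * h + h := by ring

/-- For even `m` the constructions and the structure theorem match. -/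
theorem even_iff (hUE : S_UE) (k n : ℕ) (hk : 2 ≤ k) (hke : k % 2 = 0) (hn0 : 0 < n) :
    k + 2 ≤ muHat n k 1 ↔ 3 * k + 3 ≤ n ∨ ∃ d : ℕ, d ∣ n ∧ d % 3 = 2 ∧ 3 * (k + 2) ≤ n + n / d := by
  rw [eq_main n k hn0 hk]
  constructor
  · rintro ⟨A, hA, hG⟩
    by_cases hn : 3 * k + 3 ≤ n
    · exact Or.inl hn
    · right
      obtain ⟨d, h, c, h1, h2, h3, _⟩ := low_gen n (k + 2) hn0 (by omega) A hA hG
      obtain ⟨e1, e2, e3⟩ := dvd_of_low hn0 h1 h2 h3
      exact ⟨d, e1, e2, e3⟩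
  · intro h
    apply hUE n (k + 2) (by omega) (by omega)
    rcases h with h | ⟨d, h1, h2, h3⟩
    · left; omega
    · right; exact ⟨d, h1, h2, hn0, h3⟩

/-- Lower bound for `f`. -/
theorem f_low (hAR : S_AR) (hN : S_N18) (k n : ℕ) (hk : 2 ≤ k) (hn0 : 0 < n)
    (h : k + 2 ≤ muHat n k 1) : F (k + 2) ≤ n := by
  by_contra hlt
  push Not at hlt
  obtain ⟨A, hA, hG⟩ := (eq_main n k hn0 hk).1 h
  obtain ⟨hF1, hF2, hF3⟩ := fm_main (k + 2) (by omega)
  have hmn : k + 2 ≤ n := by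
    haveI : NeZero n := ⟨hn0.ne'⟩
    rw [← hA]
    calc A.card ≤ Fintype.card (ZMod n) := card_le_univ _
      _ = n := ZMod.card n
  have hrange : n + 4 ≤ 3 * (k + 2) := by
    by_cases h7 : k + 2 = 7
    · rw [h7] at hlt ⊢
      rw [hF2] at hlt
      rcases Nat.lt_or_ge n 18 with h18 | h18
      · omega
      · exfalso
        have h18' : n = 18 := by omega
        subst h18'
        exact hN A (by rw [hA, h7]) hG
    · have := hF1 h7
      omega
  obtain ⟨d, h, c, h1, h2, h3, h4⟩ := low_gen n (k + 2) hn0 hrange A hA hG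
  rcases Nat.mod_two_eq_zero_or_one (k + 2) with he | ho
  · -- even
    have hFe : F (k + 2) = 2 * (k + 2) := by
      unfold F
      rw [if_pos he]
    rw [hFe] at hlt
    have hc : 1 ≤ c := by omega
    -- n = (3c-1) h >= 2 c h >= 2 m
    have h5 : 2 * (c * h) ≤ n := by
      rw [h1]
      have : 2 * c ≤ d := by omega
      calc 2 * (c * h) = (2 * c) * h := by ring
        _ ≤ d * h := Nat.mul_le_mul_right h this
    omega
  · obtain ⟨h5, h6⟩ := h4 ho
    by_cases h7 : k + 2 = 7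
    · -- m = 7, n ≤ 17
      have hc : 1 ≤ c := by omega
      have hc2 : 2 ≤ c := by
        by_contra hcc
        have : c = 1 := by omega
        apply h5
        omega
      -- n ≥ 5m/2 > 17
      have h8 : 5 * (c * h) ≤ 2 * n := by
        rw [h1]
        have : 5 * c ≤ 2 * d := by omega
        calc 5 * (c * h) = (5 * c) * h := by ring
          _ ≤ (2 * d) * h := Nat.mul_le_mul_right h this
          _ = 2 * (d * h) := by ring
      omega
    · have := hAR n (k + 2) d h c (by omega) ho h7 h1 h2 h3 h5 h6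
      omega

/-- The value of `f`. -/
theorem f_value (hUE : S_UE) (hCONS : S_CONS) (hUO : S_CONS → S_UO) (hAR : S_AR) (hN : S_N18)
    (k : ℕ) (hk : 2 ≤ k) : IsLeast {n : ℕ | 0 < n ∧ k + 2 ≤ muHat n k 1} (F (k + 2)) := by
  have hF3 := (fm_main (k + 2) (by omega)).2.2
  have hpos : 0 < F (k + 2) := by omega
  constructor
  · refine ⟨hpos, ?_⟩
    rw [eq_main _ k hpos hk]
    rcases Nat.mod_two_eq_zero_or_one (k + 2) with he | ho
    · have hFe : F (k + 2) = 2 * (k + 2) := by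
        unfold F
        rw [if_pos he]
      apply hUE _ (k + 2) (by omega) he
      right
      rw [hFe]
      refine ⟨2, ⟨k + 2, rfl⟩, rfl, by omega, ?_⟩
      rw [Nat.mul_div_cancel_left _ (by norm_num)]
      omega
    · exact hUO hCONS (k + 2) (by omega) ho
  · rintro n ⟨hn0, hn⟩
    exact f_low hAR hN k n hk hn0 hn

/-- The divisor condition for the pair `(m, n)`. -/
def Dv (m n : ℕ) : Prop := ∃ d ∈ n.divisors, d % 3 = 2 ∧ 3 * m ≤ n + n / d

instance (m n : ℕ) : Decidable (Dv m n) := by unfold Dv; infer_instance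

/-- `g(m, {m-2, 1})` for even `m`: one more than the largest `n ≤ 3m - 4` without a divisor
`d ≡ 2 mod 3`, `3m ≤ n + n / d`. -/
def Gv (m : ℕ) : ℕ := Nat.findGreatest (fun n => ¬ Dv m n) (3 * m - 4) + 1

theorem g_value (hUE : S_UE) (k : ℕ) (hk : 2 ≤ k) (hke : k % 2 = 0) :
    IsLeast {N : ℕ | ∀ n, N ≤ n → 0 < n → k + 2 ≤ muHat n k 1} (Gv (k + 2)) := by
  have hiff := fun n hn0 => even_iff hUE k n hk hke hn0
  have hDv : ∀ n, 0 < n → (Dv (k + 2) n ↔ ∃ d : ℕ, d ∣ n ∧ d % 3 = 2 ∧ 3 * (k + 2) ≤ n + n / d) := by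
    intro n hn0
    unfold Dv
    constructor
    · rintro ⟨d, h1, h2⟩
      exact ⟨d, (Nat.mem_divisors.1 h1).1, h2⟩
    · rintro ⟨d, h1, h2⟩
      exact ⟨d, Nat.mem_divisors.2 ⟨h1, hn0.ne'⟩, h2⟩
  have h1 : ¬ Dv (k + 2) 1 := by
    rw [hDv 1 one_pos]
    rintro ⟨d, hd, hd2, _⟩
    have : d = 1 := Nat.dvd_one.1 hd
    omega
  have hspec : ¬ Dv (k + 2) (Nat.findGreatest (fun n => ¬ Dv (k + 2) n) (3 * (k + 2) - 4)) :=
    Nat.findGreatest_spec (P := fun n => ¬ Dv (k + 2) n) (m := 1) (by omega) h1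
  have hge : 1 ≤ Nat.findGreatest (fun n => ¬ Dv (k + 2) n) (3 * (k + 2) - 4) :=
    Nat.le_findGreatest (by omega) h1
  have hle : Nat.findGreatest (fun n => ¬ Dv (k + 2) n) (3 * (k + 2) - 4) ≤ 3 * (k + 2) - 4 :=
    Nat.findGreatest_le _
  constructor
  · intro n hn hn0
    rw [hiff n hn0]
    by_cases h2 : 3 * k + 3 ≤ n
    · exact Or.inl h2
    · right
      rw [← hDv n hn0]
      by_contra hcon
      have := Nat.le_findGreatest (P := fun n => ¬ Dv (k + 2) n) (n := 3 * (k + 2) - 4) (m := n)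
        (by omega) hcon
      unfold Gv at hn
      omega
  · intro N hN
    by_contra hlt
    push Not at hlt
    unfold Gv at hlt
    have h3 := hN (Nat.findGreatest (fun n => ¬ Dv (k + 2) n) (3 * (k + 2) - 4)) (by omega)
      (by omega)
    rw [hiff _ (by omega)] at h3
    rcases h3 with h3 | h3
    · omega
    · exact hspec ((hDv _ (by omega)).2 h3)

end Pool.Agent.R43.WF
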