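import Pool.Agent.R43.WF.Stm

set_option autoImplicit false

open Finset

namespace Pool.Agent.R43.WF

namespace N18Aux

/-- bit mask of a list -/
def msk (l : List ℕ) : ℕ := l.foldr (fun c m => 2 ^ c ||| m) 0

theorem msk_spec : ∀ (l : List ℕ) (j : ℕ), Nat.testBit (msk l) j = true → j ∈ l := by
  intro l
  induction l with
  | nil => intro j h; simp [msk] at h
  | cons c l ih =>
    intro j h
    have h2 : Nat.testBit (2 ^ c ||| msk l) j = true := h
    rw [Nat.testBit_or, Bool.or_eq_true, Nat.testBit_two_pow, decide_eq_true_iff] at h2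
    rcases h2 with h2 | h2
    · rw [h2]; exact List.mem_cons_self
    · exact List.mem_cons_of_mem _ (ih j h2)

/-- some `a + b + c` with `a ≠ b` is congruent to `s` mod 18 -/
def chk (s m : ℕ) (l : List ℕ) : Bool :=
  l.any fun a => l.any fun b => (!(Nat.beq a b)) &&
    Nat.beq (m / 2 ^ ((s + 17 * a + 17 * b) % 18) % 2) 1

/-- all extensions of `l` by `n` elements of `cs` are bad -/
def go : List ℕ → ℕ → List ℕ → Bool
  | _, 0, l => chk (l.sum % 18) (msk l) l
  | [], _ + 1, _ => true
  | c :: cs, n + 1, l => go cs n (c :: l) && go cs (n + 1) l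

set_option maxRecDepth 100000 in
theorem go_run : go [0,1,2,3,4,5,6,7,8,9,10,11,12,13,14,15,16,17] 7 [] = true := by
  decide +kernel

theorem go_spec : ∀ (cs : List ℕ) (n : ℕ) (l : List ℕ), go cs n l = true →
    ∀ t : List ℕ, t.Sublist cs → t.length = n →
      chk ((t.reverse ++ l).sum % 18) (msk (t.reverse ++ l)) (t.reverse ++ l) = true := by
  intro cs
  induction cs with
  | nil =>
    intro n l h t ht hn
    have : t = [] := List.sublist_nil.mp ht
    subst this
    simp at hn
    subst hn
    simpa [go] using h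
  | cons c cs ih =>
    intro n l h t ht hn
    cases n with
    | zero =>
      have : t = [] := List.length_eq_zero_iff.mp hn
      subst this
      simpa [go] using h
    | succ n =>
      simp only [go, Bool.and_eq_true] at h
      cases ht with
      | cons _ ht' => exact ih (n + 1) l h.2 t ht' hn
      | cons_cons _ ht' =>
        rename_i t'
        have := ih n (c :: l) h.1 t' ht' (by simpa using hn)
        simpa [List.reverse_cons, List.append_assoc] using this

theorem chk_spec {s : ℕ} {l : List ℕ} (hs : s < 18) (h : chk s (msk l) l = true) :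
    ∃ a ∈ l, ∃ b ∈ l, ∃ c ∈ l, a ≠ b ∧ (a + b + c) % 18 = s := by
  simp only [chk, List.any_eq_true, Bool.and_eq_true, Bool.not_eq_true'] at h
  obtain ⟨a, ha, b, hb, hab, hm⟩ := h
  have hm' := Nat.eq_of_beq_eq_true hm
  refine ⟨a, ha, b, hb, (s + 17 * a + 17 * b) % 18, ?_, ?_, by omega⟩
  · apply msk_spec
    rw [Nat.testBit_eq_decide_div_mod_eq, decide_eq_true_iff]
    exact hm'
  · intro hh
    rw [hh] at hab
    rw [Nat.beq_refl] at hab
    exact absurd hab (by decide)

end N18Aux

open N18Aux in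
theorem n18_main : S_N18 := by
  intro A hA hG
  obtain ⟨T, hT⟩ : ∃ T : Finset ℕ, T = (Finset.range 18).filter (fun i : ℕ => (i : ZMod 18) ∈ A) :=
    ⟨_, rfl⟩
  have hmem : ∀ i, i ∈ T ↔ i < 18 ∧ (i : ZMod 18) ∈ A := by
    intro i; rw [hT, Finset.mem_filter, Finset.mem_range]
  have himg : T.image (fun i : ℕ => (i : ZMod 18)) = A := by
    ext z; constructor
    · intro h; obtain ⟨i, hi, rfl⟩ := Finset.mem_image.1 h; exact ((hmem i).1 hi).2
    · intro hz
      refine Finset.mem_image.2 ⟨z.val, (hmem _).2 ⟨ZMod.val_lt z, ?_⟩, ZMod.natCast_zmod_val z⟩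
      rwa [ZMod.natCast_zmod_val]
  have hinj : Set.InjOn (fun i : ℕ => (i : ZMod 18)) (T : Set ℕ) := by
    intro i hi j hj hij
    have h1 := ((hmem i).1 hi).1
    have h2 := ((hmem j).1 hj).1
    have h3 := (ZMod.natCast_eq_natCast_iff' i j 18).1 hij
    rwa [Nat.mod_eq_of_lt h1, Nat.mod_eq_of_lt h2] at h3
  have hcard : T.card = 7 := by rw [← hA, ← himg, Finset.card_image_of_injOn hinj]
  have hsum : ∑ x ∈ A, x = ((∑ i ∈ T, i : ℕ) : ZMod 18) := by
    rw [← himg, Finset.sum_image hinj]; push_cast; rfl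
  obtain ⟨t, ht⟩ : ∃ t : List ℕ, t = (List.range 18).filter
      (fun i : ℕ => decide ((i : ZMod 18) ∈ A)) := ⟨_, rfl⟩
  have htT : t.toFinset = T := by
    ext i
    rw [List.mem_toFinset, hmem, ht, List.mem_filter, List.mem_range, decide_eq_true_iff]
  have hnd : t.Nodup := by rw [ht]; exact List.Nodup.filter _ List.nodup_range
  have hlen : t.length = 7 := by
    rw [← List.toFinset_card_of_nodup hnd, htT, hcard]
  have hts : t.sum = ∑ i ∈ T, i := by
    rw [← htT, List.sum_toFinset _ hnd, List.map_id']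
  have hsub : t.Sublist [0,1,2,3,4,5,6,7,8,9,10,11,12,13,14,15,16,17] := by
    have : t.Sublist (List.range 18) := by rw [ht]; exact List.filter_sublist
    exact this
  have hk := go_spec _ _ _ go_run t hsub hlen
  obtain ⟨a, ha, b, hb, c, hc, hab, hs⟩ := chk_spec (Nat.mod_lt _ (by norm_num)) hk
  rw [List.append_nil] at ha hb hc hs
  rw [List.sum_reverse] at hs
  have m : ∀ i, i ∈ t.reverse → i ∈ T := by
    intro i hi; rw [← htT]; exact List.mem_toFinset.2 (List.mem_reverse.1 hi)
  refine hG (a : ZMod 18) ((hmem a).1 (m a ha)).2 b ((hmem b).1 (m b hb)).2 c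
    ((hmem c).1 (m c hc)).2 (fun hh => hab (hinj (m a ha) (m b hb) hh)) ?_
  rw [hsum, ← hts]
  have h4 := (ZMod.natCast_eq_natCast_iff' (a + b + c) t.sum 18).2 hs
  rw [← h4]; push_cast; ring

end Pool.Agent.R43.WF
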