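import Pool.Agent.R43.WF.Stm
import Pool.Agent.Helper450.Kneser

/-!
# Project WF (MP_043c16_co): the structure theorem
-/

set_option autoImplicit false

open Finset
open scoped Pointwise

namespace Pool.Agent.R43.WF

namespace StrAux

open Pool.Agent.Helper450.Kneser

variable {G : Type*} [AddCommGroup G] [Fintype G] [DecidableEq G]

theorem fs_add_fs (H : AddSubgroup G) : fs H + fs H = fs H := by
  apply add_fs_stab
  intro g hg x
  rw [mem_fs, mem_fs]
  exact ⟨fun hx => H.add_mem hx hg, fun hx => by
    have := H.sub_mem hx hg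
    rwa [add_sub_cancel_right] at this⟩

/-- Kneser for `B + A + A`. -/
theorem kneser3 (A B : Finset G) (hA : A.Nonempty) (hB : B.Nonempty) :
    (B + fs (stab (B + (A + A)))).card + 2 * (A + fs (stab (B + (A + A)))).card ≤
      (B + (A + A)).card + 2 * (fs (stab (B + (A + A)))).card := by
  set H := stab (B + (A + A)) with hH
  have h1 := kneser' B (A + A) hB (hA.add hA)
  rw [← hH] at h1
  have e1 : (A + fs H) + (A + fs H) = (A + A) + fs H := by
    rw [add_add_add_comm, fs_add_fs]
  have h2 := kneser (A + fs H) (A + fs H) (hA.add (fs_nonempty H)) (hA.add (fs_nonempty H))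
  rw [e1] at h2
  -- the stabiliser of `A + A + H` is contained in `H`
  have h3 : stab ((A + A) + fs H) ≤ H := by
    intro g hg
    have e2 : B + ((A + A) + fs H) = B + (A + A) := by
      rw [← add_assoc]
      exact add_fs_stab _ _ le_rfl
    rw [hH]
    apply mem_stab_of_forall
    intro x hx
    rw [← e2] at hx ⊢
    obtain ⟨b, hb, y, hy, rfl⟩ := Finset.mem_add.mp hx
    have e3 : b + y + g = b + (y + g) := by abel
    rw [e3]
    exact Finset.add_mem_add hb (stab_add hg hy)
  have h4 : (fs (stab ((A + A) + fs H))).card ≤ (fs H).card := card_le_card (fs_mono h3)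
  omega

open Classical in
/-- `|A + H| = (number of cosets) * |H|` -/
theorem card_add_fs (A : Finset G) (H : AddSubgroup G) :
    (A + fs H).card = (A.image (fun a : G => (QuotientAddGroup.mk a : G ⧸ H))).card * (fs H).card := by
  have h1 : (A + fs H).card = ∑ z ∈ A.image (fun a : G => (QuotientAddGroup.mk a : G ⧸ H)),
      ((A + fs H).filter fun y : G => (QuotientAddGroup.mk y : G ⧸ H) = z).card := by
    apply card_eq_sum_card_fiberwise
    intro y hy
    obtain ⟨a, ha, g, hg, rfl⟩ := Finset.mem_add.mp (mem_coe.1 hy)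
    refine mem_coe.2 (mem_image.2 ⟨a, ha, ?_⟩)
    rw [QuotientAddGroup.eq]
    have : -a + (a + g) = g := by abel
    rw [this]
    exact mem_fs.1 hg
  rw [h1, sum_const_nat (m := (fs H).card)]
  intro z hz
  obtain ⟨a, ha, rfl⟩ := mem_image.1 hz
  have h2 : ((A + fs H).filter fun y : G => (QuotientAddGroup.mk y : G ⧸ H) = QuotientAddGroup.mk a) =
      (fs H).image (fun g => a + g) := by
    ext y
    rw [mem_filter, mem_image]
    constructor
    · rintro ⟨_, h⟩
      refine ⟨-a + y, ?_, by abel⟩
      rw [mem_fs]
      exact QuotientAddGroup.eq.1 h.symm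
    · rintro ⟨g, hg, rfl⟩
      refine ⟨Finset.add_mem_add ha hg, ?_⟩
      rw [eq_comm, QuotientAddGroup.eq]
      have : -a + (a + g) = g := by abel
      rw [this]
      exact mem_fs.1 hg
  rw [h2, card_image_of_injective _ (add_right_injective a)]

theorem card_fs (H : AddSubgroup G) : (fs H).card = Nat.card H := by
  classical
  rw [Nat.card_eq_fintype_card]
  rw [Fintype.card_of_subtype (fs H) (fun x => mem_fs)]

theorem card_mul (H : AddSubgroup G) : H.index * (fs H).card = Fintype.card G := by
  rw [card_fs, mul_comm]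
  rw [← Nat.card_eq_fintype_card]
  exact H.card_mul_index

/-- a set missing `x` and stable by `H` has at most `|G| - |H|` elements -/
theorem card_le_of_stab (C : Finset G) (x : G) (hx : x ∉ C) :
    C.card + (fs (stab C)).card ≤ Fintype.card G := by
  have h1 : Disjoint C ((fs (stab C)).image fun g => x + g) := by
    rw [disjoint_left]
    intro y hy hy'
    obtain ⟨g, hg, rfl⟩ := mem_image.1 hy'
    have := (mem_stab.1 (mem_fs.1 hg) x).2 hy
    exact hx this
  have h2 : ((fs (stab C)).image fun g => x + g).card = (fs (stab C)).card :=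
    card_image_of_injective _ (add_right_injective x)
  rw [← h2, ← card_union_of_disjoint h1]
  exact card_le_univ _

/-- the 3-torsion of `ℤ_n` -/
theorem tors {n : ℕ} [NeZero n] {u v : ZMod n} (hu : u + u + u = 0) (hv : v + v + v = 0)
    (hu0 : u ≠ 0) (hv0 : v ≠ 0) (huv : u ≠ v) : u + v = 0 := by
  by_contra hne
  have h1 : (univ.filter fun z : ZMod n => 3 • z = 0).card ≤ 3 :=
    IsAddCyclic.card_nsmul_eq_zero_le (by norm_num)
  have h3 : ∀ z : ZMod n, z + z + z = 0 → 3 • z = 0 := by
    intro z hz
    rw [← hz]
    simp only [nsmul_eq_mul]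
    push_cast
    ring
  have hnu : -u ≠ u := by
    intro h
    apply hu0
    have : u = u + u + u := by
      calc u = u + (-u + u) := by ring
        _ = u + (u + u) := by rw [h]
        _ = u + u + u := by ring
    rw [this, hu]
  have hsub : ({0, u, -u, v} : Finset (ZMod n)) ⊆ univ.filter fun z : ZMod n => 3 • z = 0 := by
    intro z hz
    rw [mem_filter]
    refine ⟨mem_univ _, h3 z ?_⟩
    simp only [mem_insert, mem_singleton] at hz
    rcases hz with rfl | rfl | rfl | rfl
    · ring
    · exact hu
    · calc -u + -u + -u = -(u + u + u) := by ring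
        _ = 0 := by rw [hu, neg_zero]
    · exact hv
  have hc : ({0, u, -u, v} : Finset (ZMod n)).card = 4 := by
    rw [card_insert_of_notMem, card_insert_of_notMem, card_insert_of_notMem, card_singleton]
    · rw [mem_singleton]
      intro h
      apply hne
      rw [← h]
      ring
    · simp only [mem_insert, mem_singleton, not_or]
      exact ⟨hnu.symm, huv⟩
    · simp only [mem_insert, mem_singleton, not_or]
      refine ⟨hu0.symm, ?_, hv0.symm⟩
      intro h
      apply hu0
      have : u = -(-u) := by ring
      rw [this, ← h, neg_zero]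
  have := card_le_card hsub
  omega

theorem three_dvd {n : ℕ} [NeZero n] {u : ZMod n} (hu : u + u + u = 0) (hu0 : u ≠ 0) : 3 ∣ n := by
  by_contra h
  apply hu0
  have hco : Nat.Coprime 3 n := (Nat.Prime.coprime_iff_not_dvd (by norm_num)).2 h
  have h1 : IsUnit ((3 : ℕ) : ZMod n) := (ZMod.isUnit_iff_coprime 3 n).2 hco
  have h2 : ((3 : ℕ) : ZMod n) * u = 0 := by
    rw [← hu]
    push_cast
    ring
  exact (h1.mul_right_eq_zero).1 h2

end StrAux

open StrAux Pool.Agent.Helper450.Kneser in
/-- WF-STR -/
theorem str_main : S_STR := by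
  classical
  intro n m _ A hm hn x hx
  set Ax : Finset (ZMod n) := A.filter fun a => a + a + a = x with hAx
  set B : Finset (ZMod n) := A.filter fun a => ¬ (a + a + a = x) with hB
  have hcard : Ax.card + B.card = m := by
    rw [← hm]
    exact card_filter_add_card_filter_not _
  have hmn : m ≤ n := by
    rw [← hm]
    calc A.card ≤ Fintype.card (ZMod n) := card_le_univ _
      _ = n := ZMod.card n
  have hdvd : 2 ≤ Ax.card → 3 ∣ n := by
    intro h
    obtain ⟨a, ha, b, hb, hab⟩ := one_lt_card.1 h
    have ha' := (mem_filter.1 ha).2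
    have hb' := (mem_filter.1 hb).2
    refine three_dvd (u := a - b) ?_ (sub_ne_zero.2 hab)
    calc a - b + (a - b) + (a - b) = (a + a + a) - (b + b + b) := by ring
      _ = 0 := by rw [ha', hb', sub_self]
  have hAx2 : Ax.card ≤ 2 := by
    by_contra h
    push Not at h
    obtain ⟨a, b, c, ha, hb, hc, hab, hac, hbc⟩ := two_lt_card_iff.1 h
    have ha' := (mem_filter.1 ha).2
    have hb' := (mem_filter.1 hb).2
    have hc' := (mem_filter.1 hc).2
    have h1 : (b - a) + (c - a) = 0 := by
      refine tors ?_ ?_ (sub_ne_zero.2 hab.symm) (sub_ne_zero.2 hac.symm) ?_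
      · calc b - a + (b - a) + (b - a) = (b + b + b) - (a + a + a) := by ring
          _ = 0 := by rw [ha', hb', sub_self]
      · calc c - a + (c - a) + (c - a) = (c + c + c) - (a + a + a) := by ring
          _ = 0 := by rw [ha', hc', sub_self]
      · intro h
        apply hbc
        exact sub_left_injective h
    apply hx a (mem_filter.1 ha).1 b (mem_filter.1 hb).1 c (mem_filter.1 hc).1 hab
    rw [← ha']
    calc a + b + c = (b - a + (c - a)) + (a + a + a) := by ring
      _ = a + a + a := by rw [h1, zero_add]
  have hAne : A.Nonempty := by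
    rw [← card_pos]
    omega
  have hBne : B.Nonempty := by
    rw [← card_pos]
    by_cases h : 2 ≤ Ax.card
    · have h3 := hdvd h
      omega
    · omega
  have hxB : x ∉ B + (A + A) := by
    intro hmem
    obtain ⟨b, hb, y, hy, hby⟩ := Finset.mem_add.mp hmem
    obtain ⟨a1, ha1, a2, ha2, rfl⟩ := Finset.mem_add.mp hy
    rw [hB, mem_filter] at hb
    by_cases h1 : b = a1
    · by_cases h2 : b = a2
      · apply hb.2
        rw [← hby, ← h1, ← h2]
        ring
      · apply hx b hb.1 a2 ha2 a1 ha1 h2
        rw [← hby]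
        ring
    · apply hx b hb.1 a1 ha1 a2 ha2 h1
      rw [← hby]
      ring
  set H := stab (B + (A + A)) with hH
  have hk := kneser3 A B hAne hBne
  have hst := card_le_of_stab (B + (A + A)) x hxB
  rw [← hH] at hk hst
  rw [ZMod.card] at hst
  have hcm := card_mul H
  rw [ZMod.card] at hcm
  rw [card_add_fs A H, card_add_fs B H] at hk
  have hhpos : 0 < (fs H).card := fs_card_pos H
  have hmA : m ≤ (A.image (fun a : ZMod n => (QuotientAddGroup.mk a : ZMod n ⧸ H))).card *
      (fs H).card := by
    rw [← card_add_fs, ← hm]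
    apply card_le_card
    intro a ha
    have := Finset.add_mem_add ha (mem_fs.2 H.zero_mem)
    rwa [add_zero] at this
  have hmB : B.card ≤ (B.image (fun a : ZMod n => (QuotientAddGroup.mk a : ZMod n ⧸ H))).card *
      (fs H).card := by
    rw [← card_add_fs]
    apply card_le_card
    intro a ha
    have := Finset.add_mem_add ha (mem_fs.2 H.zero_mem)
    rwa [add_zero] at this
  have hBA : B.image (fun a : ZMod n => (QuotientAddGroup.mk a : ZMod n ⧸ H)) ⊆
      A.image (fun a : ZMod n => (QuotientAddGroup.mk a : ZMod n ⧸ H)) :=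
    image_subset_image (filter_subset _ _)
  have hcBA := card_le_card hBA
  set cA := (A.image (fun a : ZMod n => (QuotientAddGroup.mk a : ZMod n ⧸ H))).card with hcA
  set cB := (B.image (fun a : ZMod n => (QuotientAddGroup.mk a : ZMod n ⧸ H))).card with hcB
  set h := (fs H).card with hh
  set d := H.index with hd
  have hmain : cB + 2 * cA ≤ d + 1 := by
    have h1 : (cB + 2 * cA + 1) * h ≤ (d + 2) * h := by
      calc (cB + 2 * cA + 1) * h = (cB * h + 2 * (cA * h)) + h := by ring
        _ ≤ (B + (A + A)).card + 2 * h + h := by omega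
        _ ≤ n + 2 * h := by omega
        _ = (d + 2) * h := by rw [← hcm]; ring
    have h2 := Nat.le_of_mul_le_mul_right h1 hhpos
    omega
  rcases lt_or_eq_of_le hcBA with hlt | heq
  · exfalso
    have h1 : 3 * cB + 1 ≤ d := by omega
    have h2 : (3 * cB + 1) * h ≤ d * h := Nat.mul_le_mul_right h h1
    have h3 : (3 * cB + 1) * h = 3 * (cB * h) + h := by ring
    by_cases h4 : 2 ≤ Ax.card
    · have h5 := hdvd h4
      omega
    · omega
  · have h1 : d < 3 * cA := by
      by_contra hcon
      push Not at hcon
      have h2 : 3 * cA * h ≤ d * h := Nat.mul_le_mul_right h hcon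
      have h3 : 3 * cA * h = 3 * (cA * h) := by ring
      omega
    refine ⟨H, d, h, cA, rfl, (card_fs H).symm, hcm.symm, by omega, rfl, hmA, ?_⟩
    intro a ha b hb e he hmem
    have him : B.image (fun a : ZMod n => (QuotientAddGroup.mk a : ZMod n ⧸ H)) =
        A.image (fun a : ZMod n => (QuotientAddGroup.mk a : ZMod n ⧸ H)) :=
      eq_of_subset_of_card_le hBA (by omega)
    have ha2 : (QuotientAddGroup.mk a : ZMod n ⧸ H) ∈
        B.image (fun a : ZMod n => (QuotientAddGroup.mk a : ZMod n ⧸ H)) := by
      rw [him]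
      exact mem_image_of_mem _ ha
    obtain ⟨b', hb', hbe⟩ := mem_image.1 ha2
    have hg : -b' + a ∈ H := QuotientAddGroup.eq.1 hbe
    apply hxB
    have h2 : b' + (b + e) ∈ B + (A + A) :=
      Finset.add_mem_add hb' (Finset.add_mem_add hb he)
    have h3 : (-b' + a) - (a + b + e - x) ∈ H := H.sub_mem hg hmem
    have h4 := stab_add (C := B + (A + A)) h3 h2
    have h5 : b' + (b + e) + (-b' + a - (a + b + e - x)) = x := by ring
    rwa [h5] at h4

end Pool.Agent.R43.WF
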