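import Mathlib

/-!
# Project WF (MP_043c16_co): thresholds for weak (k,1)-sum-free sets of size k+2.
Definitions and the exact statements of the pieces (only Mathlib).
-/

set_option autoImplicit false

open Finset

namespace Pool.Agent.R43.WF

/-- The restricted `h`-fold sumset. -/
def restr {n : ℕ} (h : ℕ) (A : Finset (ZMod n)) : Finset (ZMod n) :=
  (A.powersetCard h).image fun S => ∑ x ∈ S, x

/-- Weakly `(k, l)`-sum-free. -/
def WSF {n : ℕ} (k l : ℕ) (A : Finset (ZMod n)) : Prop := Disjoint (restr k A) (restr l A)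

/-- The largest size of a weakly `(k, l)`-sum-free subset of `ℤ_n`. -/
noncomputable def muHat (n k l : ℕ) : ℕ := sSup {m | ∃ A : Finset (ZMod n), WSF k l A ∧ A.card = m}

/-- `σ(A)` is not in `A + A + A`, triples with three equal elements excluded. -/
def Good {n : ℕ} (A : Finset (ZMod n)) : Prop :=
  ∀ a ∈ A, ∀ b ∈ A, ∀ c ∈ A, a ≠ b → a + b + c ≠ ∑ x ∈ A, x

/-- The value of `f(m, {m-2, 1})`. -/
def F (m : ℕ) : ℕ :=
  if m % 2 = 0 then 2 * m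
  else if m = 5 then 12
  else if m = 7 then 19
  else if m = 9 then 24
  else if m = 13 then 36
  else if m = 23 then 64
  else if m = 33 then 88
  else if m = 53 then 144
  else if m = 63 then 168
  else if m % 10 = 3 then 5 * (m + 5) / 2
  else 5 * (m + 1) / 2

/-- WF-EQ: translation of the definitions. -/
def S_EQ : Prop := ∀ (n k : ℕ), 0 < n → 2 ≤ k →
  (k + 2 ≤ muHat n k 1 ↔ ∃ A : Finset (ZMod n), A.card = k + 2 ∧ Good A)

/-- WF-N18: no good set of size 7 in `ℤ_18`. -/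
def S_N18 : Prop := ∀ A : Finset (ZMod 18), A.card = 7 → ¬ Good A

/-- WF-UE: constructions for even `m`. -/
def S_UE : Prop := ∀ (n m : ℕ), 4 ≤ m → m % 2 = 0 →
  (3 * m - 3 ≤ n ∨ ∃ d : ℕ, d ∣ n ∧ d % 3 = 2 ∧ 0 < n ∧ 3 * m ≤ n + n / d) →
  ∃ A : Finset (ZMod n), A.card = m ∧ Good A

/-- WF-CONS: sets with prescribed numbers of elements in the classes mod `d`. -/
def S_CONS : Prop := ∀ (n d h : ℕ) [NeZero d], 0 < h → n = d * h → ∀ cnt : ZMod d → ℕ,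
  (∀ z, cnt z ≤ h) →
  (∀ a b c : ZMod d, cnt a ≠ 0 → cnt b ≠ 0 → cnt c ≠ 0 →
    a + b + c ≠ ∑ z : ZMod d, (cnt z : ZMod d) * z) →
  ∃ A : Finset (ZMod n), A.card = ∑ z : ZMod d, cnt z ∧ Good A

/-- WF-UO: constructions for odd `m`. -/
def S_UO : Prop := ∀ m : ℕ, 5 ≤ m → m % 2 = 1 → ∃ A : Finset (ZMod (F m)), A.card = m ∧ Good A

open Classical in
/-- WF-STR: the structure theorem (with Kneser's theorem). -/
def S_STR : Prop := ∀ (n m : ℕ) [NeZero n] (A : Finset (ZMod n)), A.card = m → n + 4 ≤ 3 * m →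
  ∀ x : ZMod n, (∀ a ∈ A, ∀ b ∈ A, ∀ c ∈ A, a ≠ b → a + b + c ≠ x) →
  ∃ (H : AddSubgroup (ZMod n)) (d h c : ℕ), H.index = d ∧ Nat.card H = h ∧ n = d * h ∧
    3 * c = d + 1 ∧ (A.image (fun a : ZMod n => (QuotientAddGroup.mk a : ZMod n ⧸ H))).card = c ∧ m ≤ c * h ∧
    ∀ a ∈ A, ∀ b ∈ A, ∀ e ∈ A, a + b + e - x ∉ H

/-- WF-AR: arithmetic for odd `m`. -/
def S_AR : Prop := ∀ (n m d h c : ℕ), 5 ≤ m → m % 2 = 1 → m ≠ 7 → n = d * h → 3 * c = d + 1 →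
  m ≤ c * h → d ≠ 2 → (d = 5 → m % 10 = 3 → m + 5 ≤ 2 * h) → F m ≤ n

open Classical in
/-- WF-D25: the indices 2 and 5. -/
def S_D25 : Prop := ∀ (n m : ℕ) [NeZero n] (A : Finset (ZMod n)), A.card = m → m % 2 = 1 →
  ∀ (H : AddSubgroup (ZMod n)) (d h c : ℕ), H.index = d → Nat.card H = h → n = d * h →
    3 * c = d + 1 → (A.image (fun a : ZMod n => (QuotientAddGroup.mk a : ZMod n ⧸ H))).card = c →
    (∀ a ∈ A, ∀ b ∈ A, ∀ e ∈ A, a + b + e - ∑ x ∈ A, x ∉ H) →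
    d ≠ 2 ∧ (d = 5 → m % 10 = 3 → m + 5 ≤ 2 * h)

/-- WF-FM: `F m` is in the range of the structure theorem. -/
def S_FM : Prop := ∀ m : ℕ, 4 ≤ m → (m ≠ 7 → F m + 3 ≤ 3 * m) ∧ F 7 = 19 ∧ m ≤ F m

/-- WF-U3: a construction for every `n ≥ 3m`. -/
def S_U3 : Prop := ∀ n m : ℕ, 4 ≤ m → 3 * m ≤ n → ∃ A : Finset (ZMod n), A.card = m ∧ Good A

end Pool.Agent.R43.WF
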