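import Pool.Agent.R43.WF.Stm

set_option autoImplicit false

open Finset

namespace Pool.Agent.R43.WF

/-- choice of the translation and of the missing element -/
theorem U3Aux.choice (n m : ℕ) (hm : 4 ≤ m) :
    ∃ (z : ℕ) (t : ZMod n), z ≤ m ∧
      (m : ZMod n) * t + ((∑ i ∈ range (m + 1), i : ℕ) : ZMod n) = 3 * t + z := by
  obtain ⟨M, hM⟩ : ∃ M : ℕ, M = ∑ i ∈ range (m + 1), i := ⟨_, rfl⟩
  have hM1 : m ≤ M := by
    rw [hM]
    exact Finset.single_le_sum (f := fun i => i) (fun i _ => Nat.zero_le i)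
      (mem_range.mpr (Nat.lt_succ_self m))
  obtain ⟨γ, hγd⟩ : ∃ γ : ℕ, γ = Nat.gcd (m - 3) n := ⟨_, rfl⟩
  have hγ : 0 < γ := by rw [hγd]; exact Nat.gcd_pos_of_pos_left _ (by omega)
  have hγ2 : γ ≤ m - 3 := by rw [hγd]; exact Nat.gcd_le_left _ (by omega)
  have hz : (M - 1) % γ + 1 ≤ m := by
    have := Nat.mod_lt (M - 1) hγ
    omega
  have hMz : M = ((M - 1) % γ + 1) + γ * ((M - 1) / γ) := by
    have := Nat.mod_add_div (M - 1) γ
    omega
  obtain ⟨z, hzd⟩ : ∃ z : ℕ, z = (M - 1) % γ + 1 := ⟨_, rfl⟩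
  obtain ⟨q, hqd⟩ : ∃ q : ℕ, q = (M - 1) / γ := ⟨_, rfl⟩
  rw [← hzd, ← hqd] at hMz
  rw [← hzd] at hz
  have hbez : (γ : ZMod n) = ((m : ZMod n) - 3) * ((Nat.gcdA (m - 3) n : ℤ) : ZMod n) := by
    have h1 := congrArg (fun x : ℤ => (x : ZMod n)) (Nat.gcd_eq_gcd_ab (m - 3) n)
    have h2 : ((m - 3 : ℕ) : ZMod n) = (m : ZMod n) - 3 := by
      rw [Nat.cast_sub (by omega : 3 ≤ m)]; norm_num
    simp only [Int.cast_natCast, Int.cast_add, Int.cast_mul, ZMod.natCast_self, zero_mul,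
      add_zero] at h1
    rw [hγd, h1, h2]
  refine ⟨z, -(((Nat.gcdA (m - 3) n : ℤ) : ZMod n) * (q : ZMod n)), hz, ?_⟩
  rw [← hM, hMz]
  push_cast
  rw [hbez]
  ring

theorem u3_main : S_U3 := by
  intro n m hm hn
  classical
  obtain ⟨z, t, hz, ht⟩ := U3Aux.choice n m hm
  have hcast : ∀ i j : ℕ, i < n → j < n → (i : ZMod n) = (j : ZMod n) → i = j := by
    intro i j hi hj h
    rw [ZMod.natCast_eq_natCast_iff'] at h
    rwa [Nat.mod_eq_of_lt hi, Nat.mod_eq_of_lt hj] at h
  have hinj : Set.InjOn (fun i : ℕ => t + (i : ZMod n)) (((range (m + 1)).erase z : Finset ℕ) : Set ℕ) := by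
    intro i hi j hj h
    have hi' : i < m + 1 := mem_range.mp (mem_of_mem_erase (by exact_mod_cast hi))
    have hj' : j < m + 1 := mem_range.mp (mem_of_mem_erase (by exact_mod_cast hj))
    exact hcast i j (by omega) (by omega) (add_left_cancel h)
  have hzm : z ∈ range (m + 1) := mem_range.mpr (by omega)
  refine ⟨((range (m + 1)).erase z).image (fun i : ℕ => t + (i : ZMod n)), ?_, ?_⟩
  · rw [card_image_of_injOn hinj, card_erase_of_mem hzm, card_range]; rfl
  · have hsum : ∑ x ∈ ((range (m + 1)).erase z).image (fun i : ℕ => t + (i : ZMod n)), x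
        = 3 * t := by
      rw [sum_image hinj]
      have h1 := Finset.add_sum_erase (range (m + 1)) (fun i : ℕ => t + (i : ZMod n)) hzm
      have h2 : ∑ i ∈ range (m + 1), (t + (i : ZMod n))
          = ((m : ZMod n) + 1) * t + ((∑ i ∈ range (m + 1), i : ℕ) : ZMod n) := by
        rw [sum_add_distrib, sum_const, card_range, nsmul_eq_mul]
        push_cast
        rfl
      rw [h2] at h1
      have h3 : ∑ i ∈ (range (m + 1)).erase z, (t + (i : ZMod n))
          = ((m : ZMod n) * t + ((∑ i ∈ range (m + 1), i : ℕ) : ZMod n)) - z := by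
        linear_combination h1
      rw [h3, ht]; ring
    intro a ha b hb c hc hab hcon
    rw [hsum] at hcon
    obtain ⟨i, hi, rfl⟩ := mem_image.mp ha
    obtain ⟨j, hj, rfl⟩ := mem_image.mp hb
    obtain ⟨l, hl, rfl⟩ := mem_image.mp hc
    have hi' : i < m + 1 := mem_range.mp (mem_of_mem_erase hi)
    have hj' : j < m + 1 := mem_range.mp (mem_of_mem_erase hj)
    have hl' : l < m + 1 := mem_range.mp (mem_of_mem_erase hl)
    have hij : i ≠ j := by
      rintro rfl; exact hab rfl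
    have h0 : ((i + j + l : ℕ) : ZMod n) = 0 := by
      push_cast
      linear_combination hcon
    rw [ZMod.natCast_eq_zero_iff] at h0
    have := Nat.le_of_dvd (by omega) h0
    omega

end Pool.Agent.R43.WF
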