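import Pool.Agent.R43.WF.Stm

/-!
# WF-UE: constructions for even `m`
-/

set_option autoImplicit false

open Finset

namespace Pool.Agent.R43.WF

namespace UEAux

theorem cast_inj {n a b : ℕ} (ha : a < n) (hb : b < n) (h : (a : ZMod n) = b) : a = b :=
  Nat.ModEq.eq_of_lt_of_lt ((ZMod.natCast_eq_natCast_iff a b n).1 h) ha hb

/-- symmetric sets -/
theorem sym {n m : ℕ} (hm : m % 2 = 0) (g : ℕ → ℕ) (hg : ∀ i < m, g i < n)
    (hinj : ∀ i < m, ∀ j < m, g i = g j → i = j) (hs : ∀ i < m, g i + g (m - 1 - i) = n)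
    (hgood : ∀ i < m, ∀ j < m, ∀ k < m, i ≠ j → ¬ n ∣ g i + g j + g k) :
    ∃ A : Finset (ZMod n), A.card = m ∧ Good A := by
  have hcinj : Set.InjOn (fun i => (g i : ZMod n)) (range m : Finset ℕ) := by
    intro i hi j hj h
    have hi' := Finset.mem_range.1 (Finset.mem_coe.1 hi)
    have hj' := Finset.mem_range.1 (Finset.mem_coe.1 hj)
    exact hinj i hi' j hj' (cast_inj (hg i hi') (hg j hj') h)
  refine ⟨(range m).image fun i => (g i : ZMod n), ?_, ?_⟩
  · rw [card_image_of_injOn hcinj, card_range]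
  · have hsum : ∑ x ∈ (range m).image (fun i => (g i : ZMod n)), x = 0 := by
      rw [sum_image (fun i hi j hj h => hcinj hi hj h), ← Nat.cast_sum,
        ZMod.natCast_eq_zero_iff]
      have h1 : ∑ i ∈ range m, g i + ∑ i ∈ range m, g i = m * n := by
        have h0 : ∑ i ∈ range m, g (m - 1 - i) = ∑ i ∈ range m, g i := sum_range_reflect g m
        calc ∑ i ∈ range m, g i + ∑ i ∈ range m, g i
            = ∑ i ∈ range m, g i + ∑ i ∈ range m, g (m - 1 - i) := by rw [h0]
          _ = ∑ i ∈ range m, (g i + g (m - 1 - i)) := sum_add_distrib.symm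
          _ = ∑ _i ∈ range m, n := sum_congr rfl fun i hi => hs i (mem_range.1 hi)
          _ = m * n := by rw [sum_const, card_range, smul_eq_mul]
      refine ⟨m / 2, ?_⟩
      have h2 : m = 2 * (m / 2) := by omega
      have h3 : m * n = 2 * (n * (m / 2)) := by
        nth_rewrite 1 [h2]
        ring
      omega
    intro a ha b hb c hc hab h
    rw [hsum] at h
    obtain ⟨i, hi, rfl⟩ := mem_image.1 ha
    obtain ⟨j, hj, rfl⟩ := mem_image.1 hb
    obtain ⟨k, hk, rfl⟩ := mem_image.1 hc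
    have h4 : ((g i + g j + g k : ℕ) : ZMod n) = 0 := by
      push_cast
      exact h
    exact hgood i (mem_range.1 hi) j (mem_range.1 hj) k (mem_range.1 hk)
      (fun e => hab (by rw [e])) ((ZMod.natCast_eq_zero_iff _ _).1 h4)

/-- `n` even -/
theorem parta {n m : ℕ} (hn : n % 2 = 0) (hm : m % 2 = 0) (h : 2 * m ≤ n) :
    ∃ A : Finset (ZMod n), A.card = m ∧ Good A := by
  have hcinj : Set.InjOn (fun i : ℕ => ((2 * i + 1 : ℕ) : ZMod n)) (range m : Finset ℕ) := by
    intro i hi j hj h'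
    have hi' := Finset.mem_range.1 (Finset.mem_coe.1 hi)
    have hj' := Finset.mem_range.1 (Finset.mem_coe.1 hj)
    have := cast_inj (n := n) (a := 2 * i + 1) (b := 2 * j + 1) (by omega) (by omega) h'
    omega
  have h2 : 2 ∣ n := Nat.dvd_of_mod_eq_zero hn
  let φ : ZMod n →+* ZMod 2 := ZMod.castHom h2 (ZMod 2)
  have hφ : ∀ i : ℕ, φ ((2 * i + 1 : ℕ) : ZMod n) = 1 := by
    intro i
    rw [map_natCast]
    push_cast
    have : (2 : ZMod 2) = 0 := by decide
    rw [this]
    ring
  refine ⟨(range m).image fun i : ℕ => ((2 * i + 1 : ℕ) : ZMod n), ?_, ?_⟩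
  · rw [card_image_of_injOn hcinj, card_range]
  · intro a ha b hb c hc _ h'
    obtain ⟨i, hi, rfl⟩ := mem_image.1 ha
    obtain ⟨j, hj, rfl⟩ := mem_image.1 hb
    obtain ⟨k, hk, rfl⟩ := mem_image.1 hc
    rw [sum_image (fun i hi j hj h => hcinj hi hj h)] at h'
    have h3 := congrArg φ h'
    rw [map_add, map_add, hφ, hφ, hφ, map_sum, sum_congr rfl (fun i _ => hφ i), sum_const,
      card_range, nsmul_eq_mul, mul_one] at h3
    have h4 : ((m : ℕ) : ZMod 2) = 0 :=
      (ZMod.natCast_eq_zero_iff m 2).2 (Nat.dvd_of_mod_eq_zero hm)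
    rw [h4] at h3
    exact absurd h3 (by decide)

/-- an interval -/
theorem partb {n m : ℕ} (hn : n % 2 = 1) (hm : m % 2 = 0) (h4 : 4 ≤ m) (h : 3 * m - 3 ≤ n) :
    ∃ A : Finset (ZMod n), A.card = m ∧ Good A := by
  refine sym hm (fun i => (n - m + 1) / 2 + i) ?_ ?_ ?_ ?_
  · intro i hi
    show (n - m + 1) / 2 + i < n
    omega
  · intro i hi j hj h'
    have h'' : (n - m + 1) / 2 + i = (n - m + 1) / 2 + j := h'
    omega
  · intro i hi
    show (n - m + 1) / 2 + i + ((n - m + 1) / 2 + (m - 1 - i)) = n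
    omega
  · rintro i hi j hj k hk hij ⟨t, ht⟩
    have ht' : (n - m + 1) / 2 + i + ((n - m + 1) / 2 + j) + ((n - m + 1) / 2 + k) = n * t := ht
    have h1 : n < (n - m + 1) / 2 + i + ((n - m + 1) / 2 + j) + ((n - m + 1) / 2 + k) := by
      omega
    have h2 : (n - m + 1) / 2 + i + ((n - m + 1) / 2 + j) + ((n - m + 1) / 2 + k) < 2 * n := by
      omega
    rw [ht'] at h1 h2
    have h3 : 1 < t := by
      by_contra hcon
      have : t ≤ 1 := by omega
      have := Nat.mul_le_mul_left n this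
      omega
    have h5 : t < 2 := by
      by_contra hcon
      have : 2 ≤ t := by omega
      have := Nat.mul_le_mul_left n this
      omega
    omega

/-- the `k`-th number with residue in `[c, 2c-1]` modulo `d = 3c-1` -/
def f (c d k : ℕ) : ℕ := d * (k / c) + (c + k % c)

theorem f_sym {c d h k : ℕ} (hc : 0 < c) (hd : d + 1 = 3 * c) (hk : k < c * h) :
    f c d k + f c d (c * h - 1 - k) = d * h := by
  have hr : k % c < c := Nat.mod_lt _ hc
  have hq : k / c < h := Nat.div_lt_of_lt_mul hk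
  have hk' : c * (k / c) + k % c = k := Nat.div_add_mod k c
  obtain ⟨e, he⟩ : ∃ e, h = k / c + 1 + e := ⟨h - (k / c + 1), by omega⟩
  have h1 : c * h - 1 - k = c * e + (c - 1 - k % c) := by
    have : c * h = c * (k / c) + c + c * e := by
      nth_rewrite 1 [he]
      ring
    omega
  have h2 : (c * e + (c - 1 - k % c)) / c = e := by
    rw [Nat.mul_add_div hc, Nat.div_eq_of_lt (by omega), add_zero]
  have h3 : (c * e + (c - 1 - k % c)) % c = c - 1 - k % c := by
    rw [Nat.mul_add_mod, Nat.mod_eq_of_lt (by omega)]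
  unfold f
  rw [h1, h2, h3]
  have h4 : d * h = d * (k / c) + d + d * e := by
    nth_rewrite 1 [he]
    ring
  omega

theorem f_lt {c d h k : ℕ} (hc : 0 < c) (hd : d + 1 = 3 * c) (hk : k < c * h) :
    f c d k < d * h := by
  have h1 := f_sym hc hd hk
  have h2 : 0 < f c d (c * h - 1 - k) := by
    unfold f
    omega
  omega

theorem f_inj {c d k k' : ℕ} (hc : 0 < c) (hd : d + 1 = 3 * c) (h : f c d k = f c d k') :
    k = k' := by
  unfold f at h
  have hr : k % c < c := Nat.mod_lt _ hc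
  have hr' : k' % c < c := Nat.mod_lt _ hc
  have h1 := congrArg (· % d) h
  simp only [Nat.mul_add_mod] at h1
  have e1 : (c + k % c) % d = c + k % c := Nat.mod_eq_of_lt (by omega)
  have e2 : (c + k' % c) % d = c + k' % c := Nat.mod_eq_of_lt (by omega)
  rw [e1, e2] at h1
  have h2 : k % c = k' % c := by omega
  have h3 : d * (k / c) = d * (k' / c) := by omega
  have h4 : k / c = k' / c := Nat.eq_of_mul_eq_mul_left (by omega) h3
  rw [← Nat.div_add_mod k c, ← Nat.div_add_mod k' c, h2, h4]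

theorem f_good {c d h k₁ k₂ k₃ : ℕ} (hc : 0 < c) (hd : d + 1 = 3 * c) :
    ¬ d * h ∣ f c d k₁ + f c d k₂ + f c d k₃ := by
  intro h0
  have h1 : d ∣ f c d k₁ + f c d k₂ + f c d k₃ := (Dvd.intro h rfl).trans h0
  have r1 : k₁ % c < c := Nat.mod_lt _ hc
  have r2 : k₂ % c < c := Nat.mod_lt _ hc
  have r3 : k₃ % c < c := Nat.mod_lt _ hc
  have e : f c d k₁ + f c d k₂ + f c d k₃ =
      d * (k₁ / c + k₂ / c + k₃ / c + 1) + (1 + (k₁ % c + k₂ % c + k₃ % c)) := by
    unfold f
    have : d * (k₁ / c + k₂ / c + k₃ / c + 1) = d * (k₁ / c) + d * (k₂ / c) + d * (k₃ / c) + d := by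
      ring
    omega
  rw [e] at h1
  have h2 := (Nat.dvd_add_right (Dvd.intro _ rfl)).1 h1
  have h3 := Nat.le_of_dvd (by omega) h2
  omega

theorem partc {n m d : ℕ} (hn : n % 2 = 1) (hm : m % 2 = 0) (hd : d ∣ n)
    (hd3 : d % 3 = 2) (h : 3 * m ≤ n + n / d) :
    ∃ A : Finset (ZMod n), A.card = m ∧ Good A := by
  obtain ⟨k, rfl⟩ := hd
  have hd0 : 0 < d := by omega
  rw [Nat.mul_div_cancel_left k hd0] at h
  obtain ⟨c, hc⟩ : ∃ c, d + 1 = 3 * c := ⟨(d + 1) / 3, by omega⟩
  have hc0 : 0 < c := by omega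
  have hdo : d % 2 = 1 := by
    by_contra hcon
    have : d % 2 = 0 := by omega
    have : d * k % 2 = 0 := by rw [Nat.mul_mod, this]; simp
    omega
  have hce : c % 2 = 0 := by omega
  have hck : c * k % 2 = 0 := by rw [Nat.mul_mod, hce]; simp
  have hmc : m ≤ c * k := by
    have h1 : d * k + k = 3 * (c * k) := by
      calc d * k + k = (d + 1) * k := by ring
        _ = 3 * (c * k) := by rw [hc]; ring
    omega
  refine sym hm (fun i => f c d ((c * k - m) / 2 + i)) ?_ ?_ ?_ ?_
  · intro i hi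
    exact f_lt hc0 hc (by omega)
  · intro i hi j hj h'
    have := f_inj hc0 hc h'
    omega
  · intro i hi
    have h1 := f_sym (k := (c * k - m) / 2 + i) (h := k) hc0 hc (by omega)
    have h2 : c * k - 1 - ((c * k - m) / 2 + i) = (c * k - m) / 2 + (m - 1 - i) := by omega
    rw [h2] at h1
    exact h1
  · intro i _ j _ l _ _
    exact f_good hc0 hc

end UEAux

theorem ue_main : S_UE := by
  intro n m h4 hm h
  rcases Nat.mod_two_eq_zero_or_one n with hn | hn
  · refine UEAux.parta hn hm ?_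
    rcases h with h | ⟨d, hd, hd3, hn0, h⟩
    · omega
    · have h1 : n / d ≤ n / 2 := Nat.div_le_div_left (by omega) (by norm_num)
      omega
  · rcases h with h | ⟨d, hd, hd3, hn0, h⟩
    · exact UEAux.partb hn hm h4 h
    · exact UEAux.partc hn hm hd hd3 h

end Pool.Agent.R43.WF
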