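import Mathlib
import Pool.Agent.R43.WF.Stm

set_option autoImplicit false

/-!
UO: constructions for odd `m`.
-/

open Finset

namespace Pool.Agent.R43.WF

namespace UOAux

theorem two (hc : S_CONS) (n d h A B : ℕ) [NeZero d] (t1 t2 α β : ZMod d) (ht : t1 ≠ t2)
    (hh : 0 < h) (hn : n = d * h) (hA : A ≤ h) (hB : B ≤ h)
    (hα : (A : ZMod d) = α) (hβ : (B : ZMod d) = β)
    (hcond : ∀ a b c : ZMod d, (a = t1 ∨ a = t2) → (b = t1 ∨ b = t2) → (c = t1 ∨ c = t2) →
      a + b + c ≠ α * t1 + β * t2) :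
    ∃ S : Finset (ZMod n), S.card = A + B ∧ Good S := by
  have hmem : ∀ z : ZMod d, ((if z = t1 then A else 0) + (if z = t2 then B else 0)) ≠ 0 →
      z = t1 ∨ z = t2 := by
    intro z hz
    by_contra hcon
    push Not at hcon
    rw [if_neg hcon.1, if_neg hcon.2] at hz
    exact hz rfl
  obtain ⟨S, hS, hG⟩ := hc n d h hh hn
    (fun z => (if z = t1 then A else 0) + (if z = t2 then B else 0)) (by
      intro z
      by_cases h1 : z = t1
      · have h2 : z ≠ t2 := fun h => ht (h1.symm.trans h)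
        simp only [if_pos h1, if_neg h2]
        omega
      · simp only [if_neg h1]
        split_ifs <;> omega) (by
      intro a b c ha hb hcc
      have : (∑ z : ZMod d, (((if z = t1 then A else 0) + (if z = t2 then B else 0) : ℕ) : ZMod d)
          * z) = α * t1 + β * t2 := by
        simp [add_mul, Finset.sum_add_distrib, hα, hβ]
      rw [this]
      exact hcond a b c (hmem a ha) (hmem b hb) (hmem c hcc))
  refine ⟨S, ?_, hG⟩
  rw [hS, Finset.sum_add_distrib]
  simp

theorem three (hc : S_CONS) (n d h A B C : ℕ) [NeZero d] (t1 t2 t3 : ZMod d) (ht : t1 ≠ t2)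
    (ht' : t1 ≠ t3) (ht'' : t2 ≠ t3)
    (hh : 0 < h) (hn : n = d * h) (hA : A ≤ h) (hB : B ≤ h) (hC : C ≤ h)
    (hcond : ∀ a b c : ZMod d, (a = t1 ∨ a = t2 ∨ a = t3) → (b = t1 ∨ b = t2 ∨ b = t3) →
      (c = t1 ∨ c = t2 ∨ c = t3) → a + b + c ≠ (A : ZMod d) * t1 + (B : ZMod d) * t2 + (C : ZMod d) * t3) :
    ∃ S : Finset (ZMod n), S.card = A + B + C ∧ Good S := by
  have hmem : ∀ z : ZMod d, ((if z = t1 then A else 0) + (if z = t2 then B else 0) +
      (if z = t3 then C else 0)) ≠ 0 → z = t1 ∨ z = t2 ∨ z = t3 := by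
    intro z hz
    by_contra hcon
    push Not at hcon
    rw [if_neg hcon.1, if_neg hcon.2.1, if_neg hcon.2.2] at hz
    exact hz rfl
  obtain ⟨S, hS, hG⟩ := hc n d h hh hn
    (fun z => (if z = t1 then A else 0) + (if z = t2 then B else 0) +
      (if z = t3 then C else 0)) (by
      intro z
      by_cases h1 : z = t1
      · have h2 : z ≠ t2 := fun h => ht (h1.symm.trans h)
        have h3 : z ≠ t3 := fun h => ht' (h1.symm.trans h)
        simp only [if_pos h1, if_neg h2, if_neg h3]
        omega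
      · by_cases h2 : z = t2
        · have h3 : z ≠ t3 := fun h => ht'' (h2.symm.trans h)
          simp only [if_neg h1, if_pos h2, if_neg h3]
          omega
        · simp only [if_neg h1, if_neg h2]
          split_ifs <;> omega) (by
      intro a b c ha hb hcc
      have : (∑ z : ZMod d, (((if z = t1 then A else 0) + (if z = t2 then B else 0) +
          (if z = t3 then C else 0) : ℕ) : ZMod d) * z) =
          (A : ZMod d) * t1 + (B : ZMod d) * t2 + (C : ZMod d) * t3 := by
        simp [add_mul, Finset.sum_add_distrib]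
      rw [this]
      exact hcond a b c (hmem a ha) (hmem b hb) (hmem c hcc))
  refine ⟨S, ?_, hG⟩
  rw [hS, Finset.sum_add_distrib, Finset.sum_add_distrib]
  simp

theorem cast5 (q r : ℕ) : ((5 * q + r : ℕ) : ZMod 5) = (r : ZMod 5) := by
  push_cast
  have : (5 : ZMod 5) = 0 := rfl
  rw [this]; ring

end UOAux

open UOAux in
theorem uo_main : S_CONS → S_UO := by
  intro hc m hm hodd
  by_cases h5 : m = 5
  · subst h5
    rw [show F 5 = 12 from by decide]
    exact ⟨({1, 2, 3, 4, 5} : Finset (ZMod 12)), by decide, by unfold Good; decide⟩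
  by_cases h7 : m = 7
  · subst h7
    rw [show F 7 = 19 from by decide]
    exact ⟨({9, 10, 11, 12, 13, 14, 15} : Finset (ZMod 19)), by decide, by unfold Good; decide⟩
  by_cases h9 : m = 9
  · subst h9
    exact three hc 24 8 3 3 3 3 1 2 3 (by decide) (by decide) (by decide) (by norm_num)
      (by norm_num) (by norm_num) (by norm_num) (by norm_num) (by decide)
  by_cases h13 : m = 13
  · subst h13
    rw [show F 13 = 36 from by decide]
    refine ⟨({3, 4, 5, 6, 7, 8, 9, 10, 11, 12, 13, 14, 15} : Finset (ZMod 36)), by decide, ?_⟩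
    unfold Good
    decide +kernel
  by_cases h23 : m = 23
  · subst h23
    exact three hc 64 8 8 8 7 8 0 1 2 (by decide) (by decide) (by decide) (by norm_num)
      (by norm_num) (by norm_num) (by norm_num) (by norm_num) (by decide)
  by_cases h33 : m = 33
  · subst h33
    exact three hc 88 8 11 11 11 11 1 2 3 (by decide) (by decide) (by decide) (by norm_num)
      (by norm_num) (by norm_num) (by norm_num) (by norm_num) (by decide)
  by_cases h53 : m = 53
  · subst h53
    exact three hc 144 8 18 18 17 18 1 2 3 (by decide) (by decide) (by decide) (by norm_num)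
      (by norm_num) (by norm_num) (by norm_num) (by norm_num) (by decide)
  by_cases h63 : m = 63
  · subst h63
    exact three hc 168 8 21 21 21 21 0 1 2 (by decide) (by decide) (by decide) (by norm_num)
      (by norm_num) (by norm_num) (by norm_num) (by norm_num) (by decide)
  have he : ¬ (m % 2 = 0) := by omega
  by_cases h3 : m % 10 = 3
  · obtain ⟨q, hq⟩ : ∃ q, m = 10 * (q + 1) + 3 := ⟨m / 10 - 1, by omega⟩
    have hF : F m = 5 * (5 * q + 9) := by
      unfold F
      rw [if_neg he, if_neg h5, if_neg h7, if_neg h9, if_neg h13, if_neg h23, if_neg h33,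
        if_neg h53, if_neg h63, if_pos h3]
      omega
    rw [hF]
    obtain ⟨S, hS, hG⟩ := two hc (5 * (5 * q + 9)) 5 (5 * q + 9) (5 * q + 4) (5 * q + 9)
      0 1 ((4 : ℕ) : ZMod 5) ((9 : ℕ) : ZMod 5) (by decide) (by omega) rfl (by omega) (by omega)
      (cast5 q 4) (cast5 q 9) (by decide)
    exact ⟨S, by omega, hG⟩
  have hF : F m = 5 * (m + 1) / 2 := by
    unfold F
    rw [if_neg he, if_neg h5, if_neg h7, if_neg h9, if_neg h13, if_neg h23, if_neg h33,
      if_neg h53, if_neg h63, if_neg h3]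
  rw [hF]
  have hr : m % 10 = 1 ∨ m % 10 = 5 ∨ m % 10 = 7 ∨ m % 10 = 9 := by omega
  rcases hr with hr | hr | hr | hr
  · obtain ⟨q, hq⟩ : ∃ q, m = 10 * q + 1 := ⟨m / 10, by omega⟩
    obtain ⟨S, hS, hG⟩ := two hc (5 * (m + 1) / 2) 5 (5 * q + 1) (5 * q + 1) (5 * q + 0)
      3 4 ((1 : ℕ) : ZMod 5) ((0 : ℕ) : ZMod 5) (by decide) (by omega) (by omega) (by omega)
      (by omega) (cast5 q 1) (cast5 q 0) (by decide)
    exact ⟨S, by omega, hG⟩
  · obtain ⟨q, hq⟩ : ∃ q, m = 10 * q + 5 := ⟨m / 10, by omega⟩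
    obtain ⟨S, hS, hG⟩ := two hc (5 * (m + 1) / 2) 5 (5 * q + 3) (5 * q + 3) (5 * q + 2)
      1 2 ((3 : ℕ) : ZMod 5) ((2 : ℕ) : ZMod 5) (by decide) (by omega) (by omega) (by omega)
      (by omega) (cast5 q 3) (cast5 q 2) (by decide)
    exact ⟨S, by omega, hG⟩
  · obtain ⟨q, hq⟩ : ∃ q, m = 10 * q + 7 := ⟨m / 10, by omega⟩
    obtain ⟨S, hS, hG⟩ := two hc (5 * (m + 1) / 2) 5 (5 * q + 4) (5 * q + 4) (5 * q + 3)
      4 0 ((4 : ℕ) : ZMod 5) ((3 : ℕ) : ZMod 5) (by decide) (by omega) (by omega) (by omega)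
      (by omega) (cast5 q 4) (cast5 q 3) (by decide)
    exact ⟨S, by omega, hG⟩
  · obtain ⟨q, hq⟩ : ∃ q, m = 10 * q + 9 := ⟨m / 10, by omega⟩
    obtain ⟨S, hS, hG⟩ := two hc (5 * (m + 1) / 2) 5 (5 * q + 5) (5 * q + 5) (5 * q + 4)
      0 1 ((5 : ℕ) : ZMod 5) ((4 : ℕ) : ZMod 5) (by decide) (by omega) (by omega) (by omega)
      (by omega) (cast5 q 5) (cast5 q 4) (by decide)
    exact ⟨S, by omega, hG⟩

end Pool.Agent.R43.WF
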